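import Pool.Agent.H2.KM.Targets

/-!
Super-symmetric powers modulo numerical equivalence (MP_fd35e1_ag): row CMM, the contractions
commute.
-/

set_option autoImplicit false

open Matrix Pool.Agent.H2.NL Pool.Agent.H2.KM Pool.Agent.H64.CC

namespace Pool.Agent.H7.KM

section

variable {K : Type} [Field K] {I : Type} (F : Form K I)
  {x : List I → List I → K}

private theorem up3 (hx : GS F.o x) (e f : I) (u v : List I) :
    x (e :: F.st e :: f :: u) v = x (f :: e :: F.st e :: u) v := by
  have h1 : ks K (F.o (F.st e)) (F.o f) * x (e :: f :: F.st e :: u) v =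
    x (e :: F.st e :: f :: u) v := hx.up 1 (e :: F.st e :: f :: u) v
  have h0 : ks K (F.o e) (F.o f) * x (f :: e :: F.st e :: u) v =
    x (e :: f :: F.st e :: u) v := hx.up 0 (e :: f :: F.st e :: u) v
  rw [F.o_st] at h1
  rw [← h1, ← h0, ← mul_assoc, ks_sq, one_mul]

private theorem lo3 (hx : GS F.o x) (e g : I) (u v : List I) :
    x u (e :: F.st e :: g :: v) = x u (g :: e :: F.st e :: v) := by
  have h1 : ks K (F.o (F.st e)) (F.o g) * x u (e :: g :: F.st e :: v) =
    x u (e :: F.st e :: g :: v) := hx.lo 1 u (e :: F.st e :: g :: v)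
  have h0 : ks K (F.o e) (F.o g) * x u (g :: e :: F.st e :: v) =
    x u (e :: g :: F.st e :: v) := hx.lo 0 u (e :: g :: F.st e :: v)
  rw [F.o_st] at h1
  rw [← h1, ← h0, ← mul_assoc, ks_sq, one_mul]

private theorem sgp3 (e f : I) (u : List I) :
    sgp K F.o f (e :: F.st e :: u) = sgp K F.o f u := by
  rw [sgp_cons, sgp_cons, F.o_st, ← mul_assoc, ks_sq, one_mul]

end

theorem pf_CMM : T_CMM := by
  intro K _ I _ _ F x hx
  refine ⟨?_, ?_, ?_⟩
  · funext u v
    simp only [opA, opB, Finset.mul_sum]
    rw [Finset.sum_comm]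
    refine Finset.sum_congr rfl fun f _ => Finset.sum_congr rfl fun e _ => ?_
    ring
  · funext u v
    simp only [opA, opC, Finset.mul_sum]
    rw [Finset.sum_comm]
    refine Finset.sum_congr rfl fun f _ => Finset.sum_congr rfl fun e _ => ?_
    rw [sgp3, up3 F hx]
    ring
  · funext u v
    simp only [opB, opC, Finset.mul_sum]
    rw [Finset.sum_comm]
    refine Finset.sum_congr rfl fun f _ => Finset.sum_congr rfl fun e _ => ?_
    rw [lo3 F hx]
    ring

end Pool.Agent.H7.KM
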